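import Mathlib.Combinatorics.Enumerative.Partition.Basic
import Mathlib.Data.Multiset.Sort
import Mathlib.RingTheory.MvPolynomial.Symmetric.Defs
import Mathlib.Data.Fintype.Powerset
import Mathlib.Order.Interval.Finset.Fin
import Mathlib.Order.Interval.Finset.Nat
import Mathlib.Algebra.Group.Nat.Even

/-!
Irreducible characters of symmetric groups through the Frobenius formula, and the two sides
`A_N(λ)`, `B_N(λ)`.
-/

namespace Q155.AltChar

open MvPolynomial

/-- The parts of a partition in weakly decreasing order. -/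
def rows {m : ℕ} (μ : m.Partition) : List ℕ := μ.parts.sort (· ≥ ·)

/-- The irreducible character value `χ^μ_ν` by the Frobenius formula: with `k` the number of
parts of `μ`, it is the coefficient of `∏_i x_i^(μ_i + k - i)` in
`(∏_{a ∈ ν} (x_1^a + ... + x_k^a)) * ∏_{i < j} (x_i - x_j)`. (Indices in `Fin k` start at `0`.) -/
noncomputable def chiList (l : List ℕ) (ν : Multiset ℕ) : ℤ :=
  coeff (Finsupp.equivFunOnFinite.symm fun i : Fin l.length => l.get i + (l.length - 1 - i.val))
    ((ν.map (psum (Fin l.length) ℤ)).prod *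
      ∏ i : Fin l.length, ∏ j ∈ Finset.Ioi i, (X i - X j))

/-- `χ^μ_ν` for a partition `μ` and a cycle type `ν`. -/
noncomputable def chi {m : ℕ} (μ : m.Partition) (ν : Multiset ℕ) : ℤ := chiList (rows μ) ν

/-- For `l = (λ_1, ..., λ_r)` and `S ⊆ {1, ..., r}` the multiset of parts of `λ̃_S`: `λ_i` is
replaced by `2 λ_i` for `i ∈ S` and by `λ_i, λ_i` for `i ∉ S`. -/
def tilde (l : List ℕ) (S : Finset (Fin l.length)) : Multiset ℕ :=
  ∑ i, if i ∈ S then {2 * l.get i} else {l.get i, l.get i}

/-- At most `N` parts, all even. -/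
def InR (N : ℕ) {m : ℕ} (μ : m.Partition) : Prop :=
  Multiset.card μ.parts ≤ N ∧ ∀ x ∈ μ.parts, Even x

/-- The part `μ'_j = #{i : μ_i ≥ j}` of the conjugate partition (`j ≥ 1`). -/
def conjPart {m : ℕ} (μ : m.Partition) (j : ℕ) : ℕ := μ.parts.countP (j ≤ ·)

/-- At most `N` parts, and every part `μ'_j` (`1 ≤ j ≤ m`) of the conjugate partition is even. -/
def InRc (N : ℕ) {m : ℕ} (μ : m.Partition) : Prop :=
  Multiset.card μ.parts ≤ N ∧ ∀ j ∈ Finset.Icc 1 m, Even (conjPart μ j)

open scoped Classical in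
/-- The set `R_N(m)` of partitions of `m`. -/
noncomputable def R (N m : ℕ) : Finset m.Partition := Finset.univ.filter (InR N)

open scoped Classical in
/-- The set `R^c_N(m)` of partitions of `m`. -/
noncomputable def Rc (N m : ℕ) : Finset m.Partition := Finset.univ.filter (InRc N)

/-- The sum `A_N` for the list `l` of parts of a partition of `n`. -/
noncomputable def AList (N n : ℕ) (l : List ℕ) : ℤ :=
  ∑ S : Finset (Fin l.length), (-1) ^ (Multiset.card (tilde l S)) *
    ∑ μ ∈ R (2 * N + 1) (2 * n), chi μ (tilde l S)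

/-- The sum `B_N` for the list `l` of parts of a partition of `n`. -/
noncomputable def BList (N n : ℕ) (l : List ℕ) : ℤ :=
  ∑ S : Finset (Fin l.length), ∑ μ ∈ Rc (2 * N) (2 * n), chi μ (tilde l S)

/-- `A_N(λ)`. -/
noncomputable def A (N : ℕ) {n : ℕ} (lam : n.Partition) : ℤ := AList N n (rows lam)

/-- `B_N(λ)`. -/
noncomputable def B (N : ℕ) {n : ℕ} (lam : n.Partition) : ℤ := BList N n (rows lam)

end Q155.AltChar
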