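import Mathlib
import Pool.Agent.Q155.AltChar.Defs

namespace Q155.AltChar

open MvPolynomial

/-! ### Coefficient extraction -/

/-- exponent vector of a list -/
noncomputable def EV (k : ℕ) (b : List ℕ) : Fin k →₀ ℕ :=
  Finsupp.equivFunOnFinite.symm fun i => b.getD i.val 0

theorem EV_apply (k : ℕ) (b : List ℕ) (i : Fin k) : EV k b i = b.getD i.val 0 := rfl

theorem coeff_psum_mul (k a : ℕ) (m : Fin k →₀ ℕ) (P : MvPolynomial (Fin k) ℤ) :
    coeff m (psum (Fin k) ℤ a * P)
      = ∑ i, if a ≤ m i then coeff (m - Finsupp.single i a) P else 0 := by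
  unfold psum
  rw [Finset.sum_mul, coeff_sum]
  refine Finset.sum_congr rfl fun i _ => ?_
  rw [X_pow_eq_monomial, coeff_monomial_mul']
  simp only [Finsupp.single_le_iff, one_mul]

/-- sign of a list -/
def sgn : List ℕ → ℤ
  | [] => 1
  | b :: t => (t.map fun x => if x < b then (1 : ℤ) else -1).prod * sgn t

/-- coefficient of the Vandermonde product -/
def V (b : List ℕ) : ℤ := if b.Nodup ∧ ∀ x ∈ b, x < b.length then sgn b else 0

/-- the computable character -/
def chiC : List ℕ → List ℕ → ℤ
  | [], b => V b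
  | a :: ν, b => ((List.range b.length).map fun i =>
      if a ≤ b.getD i 0 then chiC ν (b.set i (b.getD i 0 - a)) else 0).sum

theorem sgn_eq : ∀ b : List ℕ, sgn b =
    ∏ i : Fin b.length, ∏ j ∈ Finset.Ioi i, if b.getD j.val 0 < b.getD i.val 0 then (1 : ℤ) else -1
  | [] => by simp [sgn]
  | b :: t => by
    rw [sgn, sgn_eq t]
    simp only [List.length_cons]
    rw [Fin.prod_univ_succ, Fin.prod_Ioi_zero]
    simp only [Fin.prod_Ioi_succ]
    congr 1
    simp only [Fin.val_succ, List.getD_cons_succ, Fin.val_zero, List.getD_cons_zero]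
    rw [← Fin.prod_ofFn, ]
    congr 1
    apply List.ext_getElem
    · simp
    · intro i h1 h2
      simp only [List.getElem_map, List.getElem_ofFn]
      rw [List.getD_eq_getElem]


/-! ### The Vandermonde product -/

theorem prod_X_pow_perm (k : ℕ) (σ : Equiv.Perm (Fin k)) :
    (∏ i : Fin k, (X (σ i) : MvPolynomial (Fin k) ℤ) ^ (i : ℕ))
      = monomial (Finsupp.equivFunOnFinite.symm fun j => ((σ⁻¹ j : Fin k) : ℕ)) 1 := by
  rw [← Equiv.prod_comp σ⁻¹ (fun i : Fin k => (X (σ i) : MvPolynomial (Fin k) ℤ) ^ (i : ℕ))]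
  rw [monomial_eq, C_1, one_mul, Finsupp.prod_fintype _ _ (fun i => pow_zero _)]
  refine Finset.prod_congr rfl fun j _ => ?_
  simp

theorem coeff_vander (k : ℕ) (m : Fin k →₀ ℕ) :
    coeff m (∏ i : Fin k, ∏ j ∈ Finset.Ioi i, (X i - X j) : MvPolynomial (Fin k) ℤ)
      = if (Function.Injective m ∧ ∀ i, m i < k) then
        ∏ i : Fin k, ∏ j ∈ Finset.Ioi i, (if m j < m i then (1 : ℤ) else -1) else 0 := by
  classical
  have h1 : (∏ i : Fin k, ∏ j ∈ Finset.Ioi i, (X i - X j) : MvPolynomial (Fin k) ℤ)
      = C (∏ i : Fin k, ∏ _j ∈ Finset.Ioi i, (-1 : ℤ)) *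
        (Matrix.vandermonde (fun i : Fin k => (X i : MvPolynomial (Fin k) ℤ))).det := by
    rw [Matrix.det_vandermonde, map_prod, ← Finset.prod_mul_distrib]
    refine Finset.prod_congr rfl fun i _ => ?_
    rw [map_prod, ← Finset.prod_mul_distrib]
    refine Finset.prod_congr rfl fun j _ => ?_
    rw [map_neg, C_1]; ring
  have h2 : coeff m (Matrix.vandermonde (fun i : Fin k => (X i : MvPolynomial (Fin k) ℤ))).det
      = ∑ σ : Equiv.Perm (Fin k), (Equiv.Perm.sign σ : ℤ) *
        (if ∀ j, m j = (σ j : ℕ) then 1 else 0) := by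
    rw [Matrix.det_apply', coeff_sum]
    rw [← Equiv.sum_comp (Equiv.inv (Equiv.Perm (Fin k)))]
    refine Finset.sum_congr rfl fun σ _ => ?_
    rw [Equiv.inv_apply]
    have h3 : (∏ i : Fin k, Matrix.vandermonde (fun i : Fin k => (X i : MvPolynomial (Fin k) ℤ))
        (σ⁻¹ i) i) = ∏ i : Fin k, (X (σ⁻¹ i) : MvPolynomial (Fin k) ℤ) ^ (i : ℕ) := rfl
    rw [h3, prod_X_pow_perm, inv_inv, Equiv.Perm.sign_inv]
    have h4 : (((Equiv.Perm.sign σ : ℤ) : MvPolynomial (Fin k) ℤ)) = C (Equiv.Perm.sign σ : ℤ) := by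
      simp
    rw [h4, coeff_C_mul, coeff_monomial]
    congr 1
    by_cases h5 : ∀ j, m j = (σ j : ℕ)
    · rw [if_pos h5, if_pos]
      ext j; simp [h5 j]
    · rw [if_neg h5, if_neg]
      intro h6
      apply h5
      intro j
      rw [← h6]; simp
  rw [h1, coeff_C_mul, h2]
  by_cases hm : Function.Injective m ∧ ∀ i, m i < k
  · rw [if_pos hm]
    obtain ⟨hinj, hlt⟩ := hm
    have hinj' : Function.Injective (fun i : Fin k => (⟨m i, hlt i⟩ : Fin k)) := by
      intro a b hab
      exact hinj (congrArg Fin.val hab)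
    let σ0 : Equiv.Perm (Fin k) := Equiv.ofBijective _ (Finite.injective_iff_bijective.1 hinj')
    have hσ0 : ∀ j, m j = (σ0 j : ℕ) := fun j => rfl
    rw [Finset.sum_eq_single σ0]
    · rw [if_pos hσ0, mul_one, Equiv.Perm.sign_eq_prod_prod_Ioi]
      push_cast
      rw [← Finset.prod_mul_distrib]
      refine Finset.prod_congr rfl fun i _ => ?_
      rw [← Finset.prod_mul_distrib]
      refine Finset.prod_congr rfl fun j hj => ?_
      rw [Finset.mem_Ioi] at hj
      have hne : m i ≠ m j := fun h => (ne_of_lt hj) (hinj h)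
      have h7 : (σ0 i < σ0 j) ↔ m i < m j := by
        rw [Fin.lt_def, ← hσ0, ← hσ0]
      by_cases h8 : m i < m j
      · rw [if_pos (h7.2 h8), if_neg (by omega)]; simp
      · rw [if_neg (fun h => h8 (h7.1 h)), if_pos (by omega)]; simp
    · intro σ _ hσ
      rw [if_neg, mul_zero]
      intro h
      apply hσ
      ext j
      rw [← hσ0, h]
    · intro h
      exact absurd (Finset.mem_univ _) h
  · rw [if_neg hm]
    rw [Finset.sum_eq_zero, mul_zero]
    intro σ _
    rw [if_neg, mul_zero]
    intro h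
    apply hm
    refine ⟨?_, ?_⟩
    · intro a b hab
      rw [h, h] at hab
      exact σ.injective (Fin.ext hab)
    · intro i
      rw [h]
      exact (σ i).isLt

theorem V_eq (b : List ℕ) : V b = coeff (EV b.length b)
    (∏ i : Fin b.length, ∏ j ∈ Finset.Ioi i, (X i - X j) : MvPolynomial (Fin b.length) ℤ) := by
  rw [coeff_vander]
  unfold V
  have h : (b.Nodup ∧ ∀ x ∈ b, x < b.length) ↔
      (Function.Injective (EV b.length b) ∧ ∀ i, EV b.length b i < b.length) := by
    have hE : ∀ i : Fin b.length, EV b.length b i = b.get i := by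
      intro i
      rw [EV_apply, List.getD_eq_getElem _ _ i.isLt]; rfl
    have hE' : (EV b.length b : Fin b.length → ℕ) = b.get := funext hE
    rw [hE', List.nodup_iff_injective_get]
    refine and_congr_right fun _ => ?_
    rw [List.forall_mem_iff_get]
  by_cases hb : b.Nodup ∧ ∀ x ∈ b, x < b.length
  · rw [if_pos hb, if_pos (h.1 hb), sgn_eq]
    rfl
  · rw [if_neg hb, if_neg (fun h' => hb (h.2 h'))]

theorem coeff_chiC (k : ℕ) : ∀ (ν b : List ℕ), b.length = k →
    coeff (EV k b) (((ν.map (psum (Fin k) ℤ)).prod *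
      ∏ i : Fin k, ∏ j ∈ Finset.Ioi i, (X i - X j) : MvPolynomial (Fin k) ℤ)) = chiC ν b
  | [], b, hb => by
    subst hb
    rw [List.map_nil, List.prod_nil, one_mul, chiC, V_eq]
  | a :: ν, b, hb => by
    rw [List.map_cons, List.prod_cons, mul_assoc, coeff_psum_mul, chiC, hb]
    have hr : ∀ f : ℕ → ℤ, ((List.range k).map f).sum = ∑ i : Fin k, f i := by
      intro f
      rw [← Finset.sum_range f]
      rfl
    rw [hr]
    refine Finset.sum_congr rfl fun i _ => ?_
    rw [EV_apply]
    by_cases h : a ≤ b.getD i.val 0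
    · rw [if_pos h, if_pos h]
      have hE : EV k b - Finsupp.single i a = EV k (b.set i.val (b.getD i.val 0 - a)) := by
        ext j
        rw [Finsupp.tsub_apply, EV_apply, EV_apply]
        by_cases hij : i = j
        · subst hij
          rw [Finsupp.single_eq_same, List.getD_eq_getElem (b.set _ _) _ (by
            rw [List.length_set, hb]; exact i.isLt), List.getElem_set_self]
        · rw [Finsupp.single_eq_of_ne (Ne.symm hij), Nat.sub_zero]
          have hij' : i.val ≠ j.val := fun h => hij (Fin.ext h)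
          rw [List.getD_eq_getElem _ _ (show j.val < b.length by rw [hb]; exact j.isLt),
            List.getD_eq_getElem (b.set _ _) _ (by rw [List.length_set, hb]; exact j.isLt),
            List.getElem_set_ne hij']
      rw [hE]
      exact coeff_chiC k ν _ (by rw [List.length_set, hb])
    · rw [if_neg h, if_neg h]

/-- beta numbers -/
def beta : List ℕ → List ℕ
  | [] => []
  | x :: t => (x + t.length) :: beta t

theorem length_beta : ∀ l : List ℕ, (beta l).length = l.length
  | [] => rfl
  | x :: t => by rw [beta, List.length_cons, length_beta t, List.length_cons]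

theorem beta_getD : ∀ (l : List ℕ) (i : ℕ) (hi : i < l.length),
    (beta l).getD i 0 = l.get ⟨i, hi⟩ + (l.length - 1 - i)
  | [], i, hi => by simp at hi
  | x :: t, 0, hi => by simp [beta]
  | x :: t, i + 1, hi => by
    rw [beta, List.getD_cons_succ, beta_getD t i (by simpa using hi)]
    simp only [List.get_eq_getElem, List.getElem_cons_succ, List.length_cons]
    omega

theorem chiList_eq (l ν : List ℕ) : chiList l (ν : Multiset ℕ) = chiC ν (beta l) := by
  have h := coeff_chiC l.length ν (beta l) (length_beta l)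
  rw [← h]
  unfold chiList
  rw [Multiset.map_coe, Multiset.prod_coe]
  congr 1
  ext i
  rw [EV_apply, beta_getD l i.val i.isLt]
  rfl

/-! ### Enumeration of partitions -/

/-- partitions of `n` with parts `≤ mx` as decreasing lists -/
def en : ℕ → ℕ → List (List ℕ)
  | 0, n => if n = 0 then [[]] else []
  | mx + 1, n => (List.range (n / (mx + 1) + 1)).flatMap fun c =>
      (en mx (n - c * (mx + 1))).map (List.replicate c (mx + 1) ++ ·)

theorem mem_en : ∀ (mx n : ℕ) (l : List ℕ), l ∈ en mx n ↔
    (l.Pairwise (· ≥ ·) ∧ (∀ x ∈ l, 1 ≤ x ∧ x ≤ mx) ∧ l.sum = n)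
  | 0, n, l => by
    unfold en
    constructor
    · intro h
      split_ifs at h with hn
      · rw [List.mem_singleton] at h
        subst h; simp [hn]
      · simp at h
    · rintro ⟨_, h2, h3⟩
      have hl : l = [] := by
        rcases l with _ | ⟨x, t⟩
        · rfl
        · have := h2 x (by simp); omega
      subst hl
      simp only [List.sum_nil] at h3
      rw [if_pos h3.symm]; simp
  | mx + 1, n, l => by
    unfold en
    rw [List.mem_flatMap]
    constructor
    · rintro ⟨c, hc, h⟩
      rw [List.mem_range] at hc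
      rw [List.mem_map] at h
      obtain ⟨t, ht, rfl⟩ := h
      rw [mem_en mx] at ht
      obtain ⟨h1, h2, h3⟩ := ht
      have hcn : c * (mx + 1) ≤ n := by
        have : c ≤ n / (mx + 1) := by omega
        exact (Nat.le_div_iff_mul_le (by omega)).1 this
      refine ⟨?_, ?_, ?_⟩
      · rw [List.pairwise_append]
        refine ⟨?_, h1, ?_⟩
        · rw [List.pairwise_replicate]; exact Or.inr le_rfl
        · intro x hx y hy
          rw [List.eq_of_mem_replicate hx]
          have := (h2 y hy).2
          omega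
      · intro x hx
        rw [List.mem_append] at hx
        rcases hx with hx | hx
        · rw [List.eq_of_mem_replicate hx]; omega
        · have := h2 x hx; omega
      · rw [List.sum_append, List.sum_replicate, smul_eq_mul, h3]; omega
    · rintro ⟨h1, h2, h3⟩
      -- split off the parts equal to mx + 1
      have key : ∀ l : List ℕ, l.Pairwise (· ≥ ·) → (∀ x ∈ l, 1 ≤ x ∧ x ≤ mx + 1) →
          ∃ (c : ℕ) (t : List ℕ), l = List.replicate c (mx + 1) ++ t ∧ t.Pairwise (· ≥ ·) ∧
            (∀ x ∈ t, 1 ≤ x ∧ x ≤ mx) := by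
        intro l
        induction l with
        | nil => intro _ _; exact ⟨0, [], rfl, List.Pairwise.nil, by simp⟩
        | cons x t ih =>
          intro hp hb
          rw [List.pairwise_cons] at hp
          by_cases hx : x = mx + 1
          · obtain ⟨c, t', h4, h5, h6⟩ := ih hp.2 (fun y hy => hb y (by simp [hy]))
            refine ⟨c + 1, t', ?_, h5, h6⟩
            rw [List.replicate_succ, List.cons_append, ← h4, hx]
          · refine ⟨0, x :: t, rfl, List.pairwise_cons.2 hp, ?_⟩
            intro y hy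
            have hx' := hb x (by simp)
            rw [List.mem_cons] at hy
            rcases hy with rfl | hy
            · omega
            · have := hp.1 y hy
              have h7 := hb y (by simp [hy])
              omega
      obtain ⟨c, t, rfl, h5, h6⟩ := key l h1 h2
      rw [List.sum_append, List.sum_replicate, smul_eq_mul] at h3
      refine ⟨c, ?_, ?_⟩
      · rw [List.mem_range]
        have : c ≤ n / (mx + 1) := (Nat.le_div_iff_mul_le (by omega)).2 (by omega)
        omega
      · rw [List.mem_map]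
        refine ⟨t, ?_, rfl⟩
        rw [mem_en mx]
        exact ⟨h5, h6, by omega⟩

theorem rows_coe {m : ℕ} (μ : m.Partition) : ((rows μ : List ℕ) : Multiset ℕ) = μ.parts :=
  Multiset.sort_eq _ _

theorem rows_mem_en {m : ℕ} (μ : m.Partition) : rows μ ∈ en m m := by
  rw [mem_en]
  refine ⟨Multiset.pairwise_sort _ _, ?_, ?_⟩
  · intro x hx
    have : x ∈ μ.parts := by rw [← rows_coe μ]; exact hx
    exact ⟨μ.parts_pos this, μ.le_of_mem_parts this⟩
  · have := μ.parts_sum
    rw [← rows_coe μ, Multiset.sum_coe] at this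
    exact this

theorem rows_inj {m : ℕ} : Function.Injective (rows : m.Partition → List ℕ) := by
  intro μ ν h
  apply Nat.Partition.ext
  rw [← rows_coe, ← rows_coe, h]

theorem rows_eq_of_sorted {m : ℕ} (μ : m.Partition) (l : List ℕ) (h : μ.parts = (l : Multiset ℕ))
    (hs : l.Pairwise (· ≥ ·)) : rows μ = l := by
  have h1 : ((rows μ : List ℕ) : Multiset ℕ) = l := by rw [rows_coe, h]
  exact (Multiset.coe_eq_coe.1 h1).eq_of_pairwise' (Multiset.pairwise_sort _ _) hs

/-- Sums over filtered partitions through the enumeration. -/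
theorem sum_filter_eq {m : ℕ} (s : Finset m.Partition) (P : List ℕ → Bool)
    (hs : ∀ μ : m.Partition, μ ∈ s ↔ P (rows μ) = true) (F : List ℕ → ℤ)
    (hnd : ((en m m).filter P).Nodup) :
    ∑ μ ∈ s, F (rows μ) = (((en m m).filter P).map F).sum := by
  classical
  rw [← List.sum_toFinset F hnd, ← Finset.sum_image (f := F) (g := rows) (s := s)
    (fun a _ b _ h => rows_inj h)]
  refine Finset.sum_congr ?_ fun _ _ => rfl
  ext l
  rw [Finset.mem_image, List.mem_toFinset, List.mem_filter]
  constructor
  · rintro ⟨μ, hμ, rfl⟩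
    exact ⟨rows_mem_en μ, (hs μ).1 hμ⟩
  · rintro ⟨h1, h2⟩
    rw [mem_en] at h1
    obtain ⟨h3, h4, h5⟩ := h1
    refine ⟨⟨(l : Multiset ℕ), fun {i} hi => (h4 i hi).1, by rw [Multiset.sum_coe]; exact h5⟩,
      ?_, ?_⟩
    · rw [hs, rows_eq_of_sorted _ l rfl h3]
      exact h2
    · exact rows_eq_of_sorted _ l rfl h3

/-- test for membership in `R` -/
def PR (N : ℕ) (l : List ℕ) : Bool := decide (l.length ≤ N) && l.all fun x => x % 2 == 0

/-- test for membership in `Rc` -/
def PRc (N m : ℕ) (l : List ℕ) : Bool := decide (l.length ≤ N) &&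
  (List.range m).all fun j => (l.countP fun x => decide (j + 1 ≤ x)) % 2 == 0

theorem mem_R {N m : ℕ} (μ : m.Partition) : μ ∈ R N m ↔ PR N (rows μ) = true := by
  classical
  unfold R PR
  rw [Finset.mem_filter]
  unfold InR
  simp only [Finset.mem_univ, true_and, Bool.and_eq_true, decide_eq_true_eq, List.all_eq_true,
    beq_iff_eq]
  rw [← rows_coe μ, Multiset.coe_card]
  simp only [Multiset.mem_coe, Nat.even_iff]

theorem mem_Rc {N m : ℕ} (μ : m.Partition) : μ ∈ Rc N m ↔ PRc N m (rows μ) = true := by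
  classical
  unfold Rc PRc
  rw [Finset.mem_filter]
  unfold InRc conjPart
  simp only [Finset.mem_univ, true_and, Bool.and_eq_true, decide_eq_true_eq, List.all_eq_true,
    beq_iff_eq, Finset.mem_Icc, List.mem_range]
  rw [← rows_coe μ, Multiset.coe_card]
  simp only [Multiset.coe_countP, Nat.even_iff]
  refine and_congr_right fun _ => ?_
  constructor
  · intro h j hj
    exact h (j + 1) ⟨by omega, by omega⟩
  · intro h j hj
    have := h (j - 1) (by omega)
    have e : j - 1 + 1 = j := by omega
    rw [e] at this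
    exact this

theorem sum_R (N m : ℕ) (ν : List ℕ) (hnd : ((en m m).filter (PR N)).Nodup) :
    ∑ μ ∈ R N m, chi μ (ν : Multiset ℕ)
      = (((en m m).filter (PR N)).map fun l => chiC ν (beta l)).sum := by
  rw [← sum_filter_eq (R N m) (PR N) (fun μ => mem_R μ) (fun l => chiC ν (beta l)) hnd]
  refine Finset.sum_congr rfl fun μ _ => ?_
  unfold chi
  rw [chiList_eq]

theorem sum_Rc (N m : ℕ) (ν : List ℕ) (hnd : ((en m m).filter (PRc N m)).Nodup) :
    ∑ μ ∈ Rc N m, chi μ (ν : Multiset ℕ)
      = (((en m m).filter (PRc N m)).map fun l => chiC ν (beta l)).sum := by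
  rw [← sum_filter_eq (Rc N m) (PRc N m) (fun μ => mem_Rc μ) (fun l => chiC ν (beta l)) hnd]
  refine Finset.sum_congr rfl fun μ _ => ?_
  unfold chi
  rw [chiList_eq]

/-! ### The counterexample -/

theorem univ_two : (Finset.univ : Finset (Finset (Fin 2))) = {∅, {0}, {1}, {0, 1}} := by decide

theorem tilde_0 : tilde [5, 3] (∅ : Finset (Fin 2)) = (([5, 5, 3, 3] : List ℕ) : Multiset ℕ) := by
  decide
theorem tilde_1 : tilde [5, 3] ({0} : Finset (Fin 2)) = (([10, 3, 3] : List ℕ) : Multiset ℕ) := by
  decide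
theorem tilde_2 : tilde [5, 3] ({1} : Finset (Fin 2)) = (([6, 5, 5] : List ℕ) : Multiset ℕ) := by
  decide
theorem tilde_3 : tilde [5, 3] ({0, 1} : Finset (Fin 2)) = (([10, 6] : List ℕ) : Multiset ℕ) := by
  decide

theorem nodup_R : ((en 16 16).filter (PR 7)).Nodup := by decide +kernel
theorem nodup_Rc : ((en 16 16).filter (PRc 6 16)).Nodup := by decide +kernel

theorem compR : ((((en 16 16).filter (PR 7)).map fun l => chiC [5, 5, 3, 3] (beta l)).sum
    - (((en 16 16).filter (PR 7)).map fun l => chiC [10, 3, 3] (beta l)).sum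
    - (((en 16 16).filter (PR 7)).map fun l => chiC [6, 5, 5] (beta l)).sum
    + (((en 16 16).filter (PR 7)).map fun l => chiC [10, 6] (beta l)).sum) = 4 := by
  decide +kernel

theorem compRc : ((((en 16 16).filter (PRc 6 16)).map fun l => chiC [5, 5, 3, 3] (beta l)).sum
    + (((en 16 16).filter (PRc 6 16)).map fun l => chiC [10, 3, 3] (beta l)).sum
    + (((en 16 16).filter (PRc 6 16)).map fun l => chiC [6, 5, 5] (beta l)).sum
    + (((en 16 16).filter (PRc 6 16)).map fun l => chiC [10, 6] (beta l)).sum) = 8 := by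
  decide +kernel

theorem AList_val : AList 3 8 [5, 3] = 4 := by
  unfold AList
  have h : ∀ f : Finset (Fin 2) → ℤ, ∑ S : Finset (Fin 2), f S = f ∅ + f {0} + f {1} + f {0, 1} := by
    intro f
    rw [univ_two, Finset.sum_insert (by decide), Finset.sum_insert (by decide),
      Finset.sum_insert (by decide), Finset.sum_singleton]
    ring
  have h2 := h (fun S => (-1) ^ (Multiset.card (tilde [5, 3] S)) *
    ∑ μ ∈ R (2 * 3 + 1) (2 * 8), chi μ (tilde [5, 3] S))
  have e1 : 2 * 3 + 1 = 7 := rfl
  have e2 : 2 * 8 = 16 := rfl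
  simp only [tilde_0, tilde_1, tilde_2, tilde_3] at h2
  refine h2.trans ?_
  rw [e1, e2, sum_R 7 16 _ nodup_R, sum_R 7 16 _ nodup_R, sum_R 7 16 _ nodup_R,
    sum_R 7 16 _ nodup_R]
  have c0 : Multiset.card (([5, 5, 3, 3] : List ℕ) : Multiset ℕ) = 4 := rfl
  have c1 : Multiset.card (([10, 3, 3] : List ℕ) : Multiset ℕ) = 3 := rfl
  have c2 : Multiset.card (([6, 5, 5] : List ℕ) : Multiset ℕ) = 3 := rfl
  have c3 : Multiset.card (([10, 6] : List ℕ) : Multiset ℕ) = 2 := rfl
  rw [c0, c1, c2, c3]
  have := compR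
  linarith

theorem BList_val : BList 3 8 [5, 3] = 8 := by
  unfold BList
  have h : ∀ f : Finset (Fin 2) → ℤ, ∑ S : Finset (Fin 2), f S = f ∅ + f {0} + f {1} + f {0, 1} := by
    intro f
    rw [univ_two, Finset.sum_insert (by decide), Finset.sum_insert (by decide),
      Finset.sum_insert (by decide), Finset.sum_singleton]
    ring
  have h2 := h (fun S => ∑ μ ∈ Rc (2 * 3) (2 * 8), chi μ (tilde [5, 3] S))
  have e1 : 2 * 3 = 6 := rfl
  have e2 : 2 * 8 = 16 := rfl
  simp only [tilde_0, tilde_1, tilde_2, tilde_3] at h2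
  refine h2.trans ?_
  rw [e1, e2, sum_Rc 6 16 _ nodup_Rc, sum_Rc 6 16 _ nodup_Rc, sum_Rc 6 16 _ nodup_Rc,
    sum_Rc 6 16 _ nodup_Rc]
  have := compRc
  linarith

/-- the partition `(5, 3)` of `8` -/
def lam53 : Nat.Partition 8 := ⟨{5, 3}, by decide, by decide⟩

theorem main : ∃ lam : Nat.Partition 8, lam.parts = {5, 3} ∧ A 3 lam = 4 ∧ B 3 lam = 8 := by
  refine ⟨lam53, rfl, ?_, ?_⟩
  · unfold A
    rw [rows_eq_of_sorted lam53 [5, 3] rfl (by decide)]
    exact AList_val
  · unfold B
    rw [rows_eq_of_sorted lam53 [5, 3] rfl (by decide)]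
    exact BList_val

end Q155.AltChar
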